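import Pool.Agent.H75.IE4

/-!
# Isometric extensions over an intermediate W*-dynamical system

If a system `A` is an isometric extension of a subsystem `F` and `F ⊆ G ⊆ A` is an intermediate
system, then `A` is an isometric extension of `G`. The proof is in `Pool.Agent.H75.IE1` - `IE4`.
-/

set_option autoImplicit false

open Pool.Agent.H75.IE
open scoped InnerProductSpace ENNReal

namespace Pool.Agent.Results.MP_286868_an.IntermediateExtension

/-- Let `A` be a von Neumann algebra on `H` with a cyclic and separating unit vector `Ω` which
defines a trace, let `α = U · U*` be an automorphism of `A` with `U Ω = Ω`, and let `F ⊆ G ⊆ A` be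
von Neumann subalgebras with `α F = F`, `α G = G`. Let `σ` and `τ` be the canonical faithful normal
traces of the basic constructions `⟨A, e_F⟩` and `⟨A, e_G⟩`. If the closed linear span of the
closed `U`-invariant right `F`-modules in `H ⊖ H_F` of finite trace `σ` is `H ⊖ H_F`, then the
closed linear span of the closed `U`-invariant right `G`-modules in `H ⊖ H_G` of finite trace `τ`
is `H ⊖ H_G`. -/
theorem result {H : Type} [NormedAddCommGroup H] [InnerProductSpace ℂ H] [CompleteSpace H]
    (A F G : VonNeumannAlgebra H) (Ω : H) (U : H →L[ℂ] H) (S : IsSystem A Ω U)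
    (hF : IsSub A F U) (hG : IsSub A G U) (hFG : ∀ f ∈ F, f ∈ G)
    (σ τ : (H →L[ℂ] H) → ℝ≥0∞) (hσ : IsBar A F Ω σ) (hτ : IsBar A G Ω τ)
    (h : Isometric A F Ω U σ) : Isometric A G Ω U τ :=
  main S hF hG hFG hσ hτ h

end Pool.Agent.Results.MP_286868_an.IntermediateExtension
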